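import Pool.Agent.helper68.Final
import Pool.Agent.helper68.Concord

/-!
# MP_c87be1_gt: a non-trivial loop in `BΓ̄₁^ω` that is not freely homotopic to a transverse loop

The answer to Q1 is yes.  The loop is classified by the `Γ̄₁^ω`-structure induced on the unit
circle of the plane by the foliation `x² y = const`, i.e. `2 y dx + x dy = 0`, of `ℝ² ∖ {0}`
(local first integrals `x |x| y` where `x ≠ 0` and `x · sign y · √|y|` where `y ≠ 0`).

Idea of the proof. A `Γ̄₁^ω`-structure on a simply connected polyhedron is induced by a map to a
simply connected, possibly non-Hausdorff, real-analytic 1-manifold in which analytic continuation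
is maximal (`AnTree`); it is built by gluing complete lines one after another, each along its
maximal domain of analytic continuation (`AnTree.exists_extend`). In such a manifold every point
separates. On the universal cover of the circle the structure above gives a zigzag through pairs
of non-separated points (the changes of chart `u ↦ u |u|` are not diffeomorphisms at `0`), and a
monotone path can pass at most one of these cusps. A concordance to a transverse or to a trivial
structure would allow to join the ends of the zigzag over `N` turns by a number of monotone paths
bounded independently of `N`.
-/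

namespace Pool.Agent.Results.MP_c87be1_gt.NonTransverseLoop

open Pool.Agent.helper68

universe u

/-- There is a real-analytic `Γ̄₁^ω`-structure `ξ` on the circle that is concordant neither to the
trivial structure nor to any transverse structure. Consequently, in every space `B` with a
`Γ̄₁^ω`-structure `Ω` representing all loops (such as Haefliger's classifying space), there is a
loop inducing (up to concordance) `ξ`, which is not null-homotopic and not freely homotopic to
any transverse loop. -/
theorem result :
    ∃ ξ : GammaStructure Circle, ξ.IsRealAnalytic ∧
      ¬ ξ.Concordant (GammaStructure.trivial Circle) ∧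
      (∀ η : GammaStructure Circle, η.IsTransverse → ¬ ξ.Concordant η) ∧
      ∀ (B : Type u) [TopologicalSpace B] (Ω : GammaStructure B), Ω.RepresentsLoops →
        ∃ f : C(Circle, B), (Ω.pullback f).Concordant ξ ∧ ¬ f.Nullhomotopic ∧
          ∀ g : C(Circle, B), (Ω.pullback g).IsTransverse → ¬ f.Homotopic g := by
  have key : ∀ η : GammaStructure Circle, WM η → ¬ saddle.Concordant η := by
    rintro η hη ⟨Ξ, h0, h1⟩
    exact no_concordance h0 h1 hη
  refine ⟨saddle, saddle_realAnalytic, key _ trivial_wm,
    fun η hη => key η (transverse_wm hη), ?_⟩
  intro B _ Ω hΩ
  obtain ⟨f, hf⟩ := hΩ saddle
  refine ⟨f, hf, ?_, ?_⟩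
  · rintro ⟨b, hb⟩
    have h1 := GammaStructure.concordant_of_homotopic Ω hb
    rw [GammaStructure.pullback_const] at h1
    exact key _ trivial_wm (hf.symm.trans h1)
  · intro g hg hfg
    exact key _ (transverse_wm hg) (hf.symm.trans (GammaStructure.concordant_of_homotopic Ω hfg))

end Pool.Agent.Results.MP_c87be1_gt.NonTransverseLoop
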